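import Pool.Agent.helper17.FA.Gen
import Pool.Agent.helper17.EXC.Main
import Pool.Agent.helper16.EXG.All5
import Pool.Agent.helper16.EXG.GK60
import Pool.Agent.helper16.EXG.GK61
import Pool.Agent.helper16.EXG.GK62
import Pool.Agent.helper16.EXG.GK70
import Pool.Agent.helper16.EXG.GK71
import Pool.Agent.helper16.EXG.GK72
import Pool.Agent.helper16.EXG.GK80
import Pool.Agent.helper16.EXG.GK81
import Pool.Agent.helper16.EXG.GK82
import Pool.Agent.helper32.TRG.Main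

/-!
# MP_561ff4_al: `D₄(q)`, `E₆(q)`, `E₇(q)`, `E₈(q)`
-/

set_option autoImplicit false

namespace Pool.Agent.FA

open Pool.Agent.EXC

theorem d4_EG (F : Type) [Field F] [Finite F] (x : MulAut (EG (CartanMatrix.D 4) F)) (h1 : x ≠ 1) : BoundQ1 x := by
  refine bound_of_le x fun r hr hr2 hd => ?_
  obtain ⟨k, hk, hle⟩ := Pool.Agent.TRI.D4_Q1 F x h1 r hr hr2 hd
  obtain ⟨β, hβ, hb⟩ := least_of x r k hk
  exact ⟨β, hβ, hb.trans hle⟩

theorem e_EG {n : ℕ} (C : Matrix (Fin n) (Fin n) ℤ) [IsC C] (j0 : Fin n) (θ : Fin n → ℤ) (δ : Fin 5 → Fin n) (h : IsE C j0 θ δ)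
    (g0 : Ct0 C 0) (g1 : Ct0 C (-1)) (g2 : Ct2 C θ) (F : Type) [Field F] [Finite F] (x : MulAut (EG C F)) (h1 : x ≠ 1) : BoundQ1 x := by
  have hB : Pool.Agent.EXN.Bounds (Nat.card F) x := Pool.Agent.EXN.bd_of C j0 θ δ h F x h1
  refine bound_of x (fun _ => ?_) (fun _ => ?_) (fun _ => ?_) fun r hr _ hd => ⟨10, (A5.g_GFN n C F j0 θ δ h g0 g1 g2 x h1).2 r hr hd, le_rfl⟩
  · obtain ⟨β, hβ, -, -, -, h3, -⟩ := hB 3 Nat.prime_three (Or.inr (Or.inl rfl))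
    exact ⟨β, hβ.1, h3 rfl⟩
  · obtain ⟨β, hβ, -, -, -, -, h5⟩ := hB 5 Nat.prime_five (Or.inr (Or.inr (Or.inl rfl)))
    exact ⟨β, hβ.1, h5 (by norm_num)⟩
  · obtain ⟨β, hβ, -, -, -, -, h5⟩ := hB 7 (by norm_num) (Or.inr (Or.inr (Or.inr rfl)))
    exact ⟨β, hβ.1, h5 (by norm_num)⟩

theorem d4 (F : Type) [Field F] [Finite F] : Chevalley F (CartanMatrix.D 4) := d4_EG F

theorem e6 (F : Type) [Field F] [Finite F] : Chevalley F CartanMatrix.E₆ := e_EG _ _ _ _ f_DE6.2 GK60 GK61 GK62 F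

theorem e7 (F : Type) [Field F] [Finite F] : Chevalley F CartanMatrix.E₇ := e_EG _ _ _ _ f_DE7.2 GK70 GK71 GK72 F

theorem e8 (F : Type) [Field F] [Finite F] : Chevalley F CartanMatrix.E₈ := e_EG _ _ _ _ f_DE8.2 GK80 GK81 GK82 F

end Pool.Agent.FA
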