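import Pool.Agent.helper17.FA.Gen
import Pool.Agent.helper53.ORE.Final
import Pool.Agent.helper53.SP4.All

/-!
# MP_561ff4_al: symplectic and orthogonal groups
-/

set_option autoImplicit false

namespace Pool.Agent.FA

theorem symplectic (F : Type) [Field F] [Finite F] : Symplectic F := by
  intro n hn x hx h1
  rcases hx with hx | ⟨hn2, h2⟩
  · intro r hr hr2 hd
    obtain ⟨β, hβ, hle, -⟩ := (Pool.Agent.GS.fin_FIT n F hn).1 x hx h1 r hr hr2 hd
    exact ⟨β, hβ, fun e => by omega, fun _ => hle⟩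
  · subst hn2
    have : CharP F 2 := CharTwo.of_one_ne_zero_of_two_eq_zero one_ne_zero h2
    refine bound_of_le x fun r hr hr2 hd => ?_
    obtain ⟨β, hβ, -, hle⟩ := Pool.Agent.SP4.all F x h1 r hr hr2 hd
    exact ⟨β, hβ, hle⟩

theorem orthogonal (F : Type) [Field F] [Finite F] : Orthogonal F := by
  intro V _ _ _ Q hQ hV x hx h1 r hr hr2 hd
  obtain ⟨β, hβ, hle⟩ := (Pool.Agent.ORE.fin_ALL Q hQ hV).1 x hx h1 r hr hr2 hd
  exact ⟨β, hβ, fun e => by omega, fun _ => hle⟩

end Pool.Agent.FA
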