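import Pool.Agent.helper17.EXC.Chev
import Pool.Agent.helper17.EXT.Defs

/-!
# The groups `F₄(q)` and `²E₆(q)` with short names (MP_561ff4_al)
-/

set_option autoImplicit false

namespace Pool.Agent.FA

open Pool.Agent.EXC Pool.Agent.EXT Pool.Agent.EXN

section
variable {K : Type} [Field K]

/-- the value `g(v)` of the linear map `g` of the Lie algebra of type `E₆` -/
def ap (g : GLm C6 K) (v : Lm C6 K) : Lm C6 K := LinearEquiv.toEquiv (R := K) (S := K) (σ := RingHom.id K) (M := Lm C6 K) (M₂ := Lm C6 K) g v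

variable (τ : K ≃+* K)

/-- `g` is the root element `x_β(t)`, `β` a root fixed by the symmetry `π` of the diagram, `t` fixed by `τ` -/
def IsLo (g : GLm C6 K) : Prop := ∃ β t, LR β ∧ τ t = t ∧ ∀ v, ap g v = xe C6 (E C6 β) t v

/-- `g` is the product `x_γ(t) x_{πγ}(± τ t)`, `γ` a root not fixed by `π` -/
def IsSh (g : GLm C6 K) : Prop :=
  ∃ γ t, SR γ ∧ ∀ v, ap g v = xe C6 (E C6 γ) t (xe C6 (E C6 (pv γ)) ((sn γ : K) * τ t) v)

/-- the group generated by these elements; it acts on the set `LT τ` of the fixed vectors of the `τ`-semilinear automorphism `si τ` -/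
noncomputable def TwL : Subgroup (GLm C6 K) := Subgroup.closure {g | IsLo τ g ∨ IsSh τ g}

/-- the permutations of `LT τ` -/
def Pm : Type := Equiv.Perm (LT τ)

instance instGroupPm : Group (Pm τ) := Equiv.Perm.permGroup (α := LT τ)

/-- the permutation `f` of `LT τ` is induced by `g` -/
def Ind (g : GLm C6 K) (f : Pm τ) : Prop := ∀ v : LT τ, (Equiv.toFun (α := LT τ) (β := LT τ) f v).1 = ap g v.1

/-- the permutations of `LT τ` induced by the elements of `TwL τ` -/
noncomputable def TwS : Subgroup (Pm τ) := Subgroup.closure {f | ∃ g ∈ TwL τ, Ind τ g f}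

/-- the group of these permutations: `F₄(K)` for `τ = 1`, and `²E₆(q)` for `K = F_{q²}`, `τ(t) = t^q` -/
def Tw : Type := ↥(TwS τ)

noncomputable instance instGroupTw : Group (Tw τ) := (TwS τ).toGroup

theorem TwL_eq : TwL τ = Pool.Agent.EXT.GS τ := rfl

theorem TwS_eq : (TwS τ : Subgroup (Equiv.Perm (LT τ))) = Pool.Agent.EXT.GF τ := by
  have h : {f : Equiv.Perm (LT τ) | ∃ g ∈ TwL τ, Ind τ g f} = (Pool.Agent.EXT.GF τ : Set (Equiv.Perm (LT τ))) := by
    ext f
    constructor
    · rintro ⟨g, hg, h⟩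
      exact ⟨g, (TwL_eq τ) ▸ hg, h⟩
    · rintro ⟨g, hg, h⟩
      exact ⟨g, (TwL_eq τ).symm ▸ hg, h⟩
  have h2 : (TwS τ : Subgroup (Equiv.Perm (LT τ))) = Subgroup.closure {f : Equiv.Perm (LT τ) | ∃ g ∈ TwL τ, Ind τ g f} := rfl
  rw [h2, h, Subgroup.closure_eq]

end

end Pool.Agent.FA
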