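import Pool.Agent.helper17.EXC.Chev
import Pool.Agent.helper17.FA.Tw
import Pool.Agent.helper22.GS.Defs
import Pool.Agent.helper53.ORE.Basic
import Pool.Agent.helper32.TRI.Defs

/-!
# MP_561ff4_al: the bound of Q1 and the families of simple groups. Definitions
-/

set_option autoImplicit false

namespace Pool.Agent.FA

open Pool.Agent.EXC

instance isC_D4 : IsC (CartanMatrix.D 4) := Pool.Agent.TRI.iC4

/-- The bound of Q1 for the automorphism `x` of the group `S`: for every odd prime `r` dividing `|S|`, `β_{r,S}(x) ≤ 3` if `r = 3` and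
`β_{r,S}(x) ≤ r - 1` if `r > 3`. -/
def BoundQ1 {S : Type} [Group S] (x : MulAut S) : Prop :=
  ∀ r : ℕ, r.Prime → r ≠ 2 → r ∣ Nat.card S → ∃ β, IsLeast (Pool.Agent.GS.CSet r x) β ∧ (r = 3 → β ≤ 3) ∧ (3 < r → β ≤ r - 1)

section
variable (F : Type) [Field F]

/-- The symplectic groups `PSp(2n, F)`, `n ≥ 2`, with the automorphisms in `PΓSp(2n, F)`, and all automorphisms if `n = 2` and `F` has
characteristic 2. -/
def Symplectic : Prop := ∀ n : ℕ, 2 ≤ n → ∀ x : MulAut (Pool.Agent.GS.PSp n F), (Pool.Agent.GS.IsPGammaSp n F x ∨ (n = 2 ∧ (2 : F) = 0)) →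
  x ≠ 1 → BoundQ1 x

/-- The orthogonal groups `PΩ(V)`, `dim V ≥ 7`, the polar form of `Q` nondegenerate, with the automorphisms in `PΓO(V)`. -/
def Orthogonal : Prop := ∀ (V : Type) [AddCommGroup V] [Module F V] [FiniteDimensional F V] (Q : QuadraticForm F V), Pool.Agent.ORE.Nd Q →
  7 ≤ Module.finrank F V → ∀ x : MulAut (Pool.Agent.ORE.POmQ Q), Pool.Agent.ORE.IsPGammaOQ Q x → x ≠ 1 → BoundQ1 x

/-- The adjoint Chevalley group of type `C` over `F`, all automorphisms. -/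
def Chevalley {n : ℕ} (C : Matrix (Fin n) (Fin n) ℤ) [IsC C] : Prop := ∀ x : MulAut (Pool.Agent.EXN.Chev C F), x ≠ 1 → BoundQ1 x

/-- The groups `Tw τ`, all automorphisms: `F₄(F)` for `τ = 1` and `²E₆(q)` for `F = F_{q²}`, `τ ≠ 1`. -/
def Twisted : Prop := ∀ τ : F ≃+* F, (∀ a, τ (τ a) = a) → ∀ x : MulAut (Tw τ), x ≠ 1 → BoundQ1 x

end

end Pool.Agent.FA
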