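import Pool.Agent.helper17.FA.Twist
import Pool.Agent.helper4.EXT.NMA
import Pool.Agent.helper16.EXT.NMB
import Pool.Agent.helper53.EXT.NMC
import Pool.Agent.helper53.EXT.NMR
import Pool.Agent.helper53.EXT.NMW
import Pool.Agent.helper63.EXT.NMD
import Pool.Agent.helper9.EXT.NMF
import Pool.Agent.helper60.EXT.NMG
import Pool.Agent.helper16.EXT.NMY
import Pool.Agent.helper60.EXT.NMZ

/-!
# MP_561ff4_al: ten conjugates of an involution which exchanges long and short root subgroups generate `F₄(2^f)`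
-/

set_option autoImplicit false

namespace Pool.Agent.FA

open Pool.Agent.EXC Pool.Agent.EXT

theorem f_NMA : NMA_stmt := NMA f_RTF f_SGR f_JCM
theorem f_NMB : NMB_stmt := NMB f_RTF NMR f_NMA
theorem f_NMD : NMD_stmt := NMD f_RTF NMR f_NMA f_NMB
theorem f_NMG : NMG_stmt := NMG f_RTF NMR f_NMA f_NMB
theorem f_NMY : NMY_stmt := NMY f_RTF f_WPS f_SGR f_GFX f_TOR f_ESF NMR f_NMA f_SIG
theorem f_NMF : NMF_stmt := NMF f_SGR f_GFX f_NMA NMC NMW f_NMD f_NMG f_NMY
theorem f_NMZ : NMZ_stmt := NMZ f_SGR f_GFX f_ESF f_FXF f_JSH f_JSY f_JXT f_JGR f_NMF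

theorem inv10 : Inv10 := fun K _ _ h2 x hx hs r hr _ hd => (f_NMZ K h2 x hx hs).2 r hr hd

end Pool.Agent.FA
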