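import Pool.Agent.helper17.FA.Chevalley
import Pool.Agent.helper17.FA.Inv
import Pool.Agent.helper17.GFG.All

/-!
# MP_561ff4_al: the exceptional groups
-/

set_option autoImplicit false

namespace Pool.Agent.FA

open Pool.Agent.EXC Pool.Agent.EXT Pool.Agent.EXN

theorem exc (F : Type) [Field F] [Finite F] :
    (∀ x : MulAut (Chev CartanMatrix.E₆ F), x ≠ 1 → BoundQ1 x ∧ Bounds (Nat.card F) x) ∧
    (∀ x : MulAut (Chev CartanMatrix.E₇ F), x ≠ 1 → BoundQ1 x ∧ Bounds (Nat.card F) x) ∧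
    (∀ x : MulAut (Chev CartanMatrix.E₈ F), x ≠ 1 → BoundQ1 x ∧ Bounds (Nat.card F) x) ∧
    Twisted F :=
  ⟨fun x h => ⟨e6 F x h, (Pool.Agent.EXN.main F).1 x h⟩, fun x h => ⟨e7 F x h, (Pool.Agent.EXN.main F).2.1 x h⟩,
    fun x h => ⟨e8 F x h, ((Pool.Agent.EXN.main F).2.2 x h).1⟩, twisted_of f_KFF inv10 F⟩

end Pool.Agent.FA
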