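import Pool.Agent.helper17.FA.Defs

/-!
# MP_561ff4_al: from elements of `CSet` to the bound of Q1
-/

set_option autoImplicit false

namespace Pool.Agent.FA

theorem least_of {S : Type} [Group S] (x : MulAut S) (r k : ℕ) (hk : k ∈ Pool.Agent.GS.CSet r x) :
    ∃ β, IsLeast (Pool.Agent.GS.CSet r x) β ∧ β ≤ k :=
  ⟨sInf (Pool.Agent.GS.CSet r x), ⟨Nat.sInf_mem ⟨k, hk⟩, fun _ h => Nat.sInf_le h⟩, Nat.sInf_le hk⟩

theorem bound_of {S : Type} [Group S] (x : MulAut S)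
    (h3 : 3 ∣ Nat.card S → ∃ k ∈ Pool.Agent.GS.CSet 3 x, k ≤ 3) (h5 : 5 ∣ Nat.card S → ∃ k ∈ Pool.Agent.GS.CSet 5 x, k ≤ 4)
    (h7 : 7 ∣ Nat.card S → ∃ k ∈ Pool.Agent.GS.CSet 7 x, k ≤ 6)
    (h10 : ∀ r : ℕ, r.Prime → 11 ≤ r → r ∣ Nat.card S → ∃ k ∈ Pool.Agent.GS.CSet r x, k ≤ 10) : BoundQ1 x := by
  intro r hr h2 hd
  by_cases e3 : r = 3
  · subst e3
    obtain ⟨k, hk, hk3⟩ := h3 hd
    obtain ⟨β, hβ, hle⟩ := least_of x 3 k hk
    exact ⟨β, hβ, fun _ => hle.trans hk3, fun h => absurd h (by norm_num)⟩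
  by_cases e5 : r = 5
  · subst e5
    obtain ⟨k, hk, hk3⟩ := h5 hd
    obtain ⟨β, hβ, hle⟩ := least_of x 5 k hk
    exact ⟨β, hβ, fun h => absurd h (by norm_num), fun _ => hle.trans hk3⟩
  by_cases e7 : r = 7
  · subst e7
    obtain ⟨k, hk, hk3⟩ := h7 hd
    obtain ⟨β, hβ, hle⟩ := least_of x 7 k hk
    exact ⟨β, hβ, fun h => absurd h (by norm_num), fun _ => hle.trans hk3⟩
  have h11 : 11 ≤ r := by
    by_contra hlt
    have h0 := hr.two_le
    have : r < 11 := by omega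
    interval_cases r
    · exact h2 rfl
    · exact e3 rfl
    · exact absurd hr (by norm_num)
    · exact e5 rfl
    · exact absurd hr (by norm_num)
    · exact e7 rfl
    · exact absurd hr (by norm_num)
    · exact absurd hr (by norm_num)
    · exact absurd hr (by norm_num)
  obtain ⟨k, hk, hk3⟩ := h10 r hr h11 hd
  obtain ⟨β, hβ, hle⟩ := least_of x r k hk
  exact ⟨β, hβ, fun h => absurd h e3, fun _ => hle.trans (by omega)⟩

theorem bound_of_le {S : Type} [Group S] (x : MulAut S)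
    (h : ∀ r : ℕ, r.Prime → r ≠ 2 → r ∣ Nat.card S → ∃ β, IsLeast (Pool.Agent.GS.CSet r x) β ∧ β ≤ if r = 3 then 3 else r - 1) : BoundQ1 x := by
  intro r hr h2 hd
  obtain ⟨β, hβ, hle⟩ := h r hr h2 hd
  refine ⟨β, hβ, fun e => ?_, fun e => ?_⟩
  · rw [if_pos e] at hle; exact hle
  · rw [if_neg (by omega)] at hle; exact hle

end Pool.Agent.FA
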