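import Pool.Agent.helper17.FA.Classical
import Pool.Agent.helper17.FA.Chevalley
import Pool.Agent.helper17.FA.Inv
import Pool.Agent.helper17.GFG.All

/-!
# MP_561ff4_al: the bound of Q1 for all remaining families of simple groups
-/

set_option autoImplicit false

namespace Pool.Agent.FA

open Pool.Agent.EXC Pool.Agent.EXT

theorem main (F : Type) [Field F] [Finite F] :
    Symplectic F ∧ Orthogonal F ∧ Chevalley F (CartanMatrix.D 4) ∧ Chevalley F CartanMatrix.E₆ ∧ Chevalley F CartanMatrix.E₇ ∧
      Chevalley F CartanMatrix.E₈ ∧ Twisted F :=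
  ⟨symplectic F, orthogonal F, d4 F, e6 F, e7 F, e8 F, twisted_of f_KFF inv10 F⟩

end Pool.Agent.FA
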