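import Pool.Agent.helper17.FA.Gen
import Pool.Agent.helper17.EXT.AllT
import Pool.Agent.helper17.GFG.Spec

/-!
# MP_561ff4_al: `F₄(q)` and `²E₆(q)`
-/

set_option autoImplicit false

namespace Pool.Agent.FA

open Pool.Agent.EXC Pool.Agent.EXT

/-- ten conjugates, involutions which exchange long and short root subgroups (characteristic 2) -/
def Inv10 : Prop := ∀ (K : Type) [Field K] [Finite K], (2 : K) = 0 → ∀ x : MulAut (GF (RingEquiv.refl K)), x * x = 1 → SwF x →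
  ∀ r : ℕ, r.Prime → r ≠ 2 → r ∣ Nat.card (GF (RingEquiv.refl K)) → 10 ∈ Pool.Agent.GS.CSet r x

theorem gf10 (hR : KFF_stmt) (hI : Inv10) (K : Type) [Field K] [Finite K] (h2 : (2 : K) = 0) (x : MulAut (GF (RingEquiv.refl K))) (hx1 : x ≠ 1)
    (r : ℕ) (hr : r.Prime) (hr2 : r ≠ 2) (hd : r ∣ Nat.card (GF (RingEquiv.refl K))) : 10 ∈ Pool.Agent.GS.CSet r x := by
  have hK : ∀ y : MulAut (GF (RingEquiv.refl K)), RAF (RingEquiv.refl K) y → y ≠ 1 → 10 ∈ Pool.Agent.GS.CSet r y :=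
    fun y hy hy1 => (hR K (RingEquiv.refl K) (fun _ => rfl) y hy hy1).2 r hr hd
  rcases f_JAU K h2 x with h | h
  · exact hK x h hx1
  have hfin0 : Finite (LT (RingEquiv.refl K)) := Subtype.finite
  have hfin1 : Finite (GF (RingEquiv.refl K)) := inferInstance
  have hfin : Finite (MulAut (GF (RingEquiv.refl K))) :=
    Finite.of_injective (fun y : MulAut (GF (RingEquiv.refl K)) => (y : GF (RingEquiv.refl K) → GF (RingEquiv.refl K)))
      DFunLike.coe_injective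
  obtain ⟨h3, h4, h5⟩ := f_JSW K h2 x h
  have heven : ∀ j : ℕ, RAF (RingEquiv.refl K) (x ^ (2 * j)) := by
    intro j
    rw [pow_mul, pow_two]
    exact JFG_pow _ h4 j
  have hodd : ∀ j : ℕ, SwF (x ^ (2 * j + 1)) := by
    intro j
    rw [pow_succ']
    exact h5 _ (heven j)
  have hxn : x ^ orderOf x = 1 := pow_orderOf_eq_one x
  have hn0 : 0 < orderOf x := orderOf_pos x
  rcases Nat.even_or_odd' (orderOf x) with ⟨m, hm | hm⟩
  · have hyy : x ^ m * x ^ m = 1 := by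
      rw [← pow_add, ← two_mul, ← hm, hxn]
    rcases Nat.even_or_odd' m with ⟨j, hj | hj⟩
    · have hy1 : x ^ m ≠ 1 := pow_ne_one_of_lt_orderOf (by omega) (by omega)
      have hy2 : RAF (RingEquiv.refl K) (x ^ m) := by rw [hj]; exact heven j
      exact (f_JGR _ x r 10).1 m (hK _ hy2 hy1)
    · have hy2 : SwF (x ^ m) := by rw [hj]; exact hodd j
      exact (f_JGR _ x r 10).1 m (hI K h2 (x ^ m) hyy hy2 r hr hr2 hd)
  · exfalso
    have h6 : SwF (x ^ orderOf x) := by rw [hm]; exact hodd m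
    rw [hxn] at h6
    exact (f_JSW K h2 1 h6).1 JFG_one

theorem gf357 (K : Type) [Field K] [Finite K] (τ : K ≃+* K) (hτ : ∀ u, τ (τ u) = u) (x : MulAut (GF τ)) (hx : RAF τ x) (h1 : x ≠ 1) :
    (∃ k ∈ Pool.Agent.GS.CSet 3 x, k ≤ 3) ∧ (∃ k ∈ Pool.Agent.GS.CSet 5 x, k ≤ 4) ∧ 6 ∈ Pool.Agent.GS.CSet 7 x := by
  obtain ⟨p, hp⟩ := CharP.exists K
  have := hp
  have : Fintype K := Fintype.ofFinite K
  obtain ⟨m, hpp, hm⟩ := FiniteField.card K p
  refine ⟨?_, ?_, f_T7 K τ hτ x hx h1⟩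
  · by_cases h3 : 3 ∣ Nat.card K
    · rw [Nat.card_eq_fintype_card, hm] at h3
      have : 3 = p := (Nat.prime_dvd_prime_iff_eq Nat.prime_three hpp).1 (Nat.prime_three.dvd_of_dvd_pow h3)
      subst this
      exact ⟨2, f_BPF K τ hτ x hx h1 3 Nat.prime_three hp, by norm_num⟩
    · exact f_I3F K τ hτ h3 x hx h1
  · by_cases h5 : (5 : K) = 0
    · have h5' : p ∣ 5 := (CharP.cast_eq_zero_iff K p 5).1 (by exact_mod_cast h5)
      have : p = 5 := (Nat.prime_dvd_prime_iff_eq hpp Nat.prime_five).1 h5'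
      subst this
      exact ⟨2, f_BPF K τ hτ x hx h1 5 Nat.prime_five hp, by norm_num⟩
    · exact ⟨4, f_G5F K τ hτ h5 x hx h1, le_rfl⟩

theorem gf_bound (hR : KFF_stmt) (hI : Inv10) (F : Type) [Field F] [Finite F] (τ : F ≃+* F) (hτ : ∀ a, τ (τ a) = a) (x : MulAut (GF τ))
    (h1 : x ≠ 1) : BoundQ1 x := by
  by_cases hc : (∃ u, τ u ≠ u) ∨ (2 : F) ≠ 0
  · have hx : RAF τ x := f_ARF F τ hτ hc x
    obtain ⟨h3, h5, h7⟩ := gf357 F τ hτ x hx h1
    exact bound_of x (fun _ => h3) (fun _ => h5) (fun _ => ⟨6, h7, le_rfl⟩)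
      fun r hr _ hd => ⟨10, (hR F τ hτ x hx h1).2 r hr hd, le_rfl⟩
  · have hc1 : ∀ u, τ u = u := fun u => by
      by_contra h
      exact hc (Or.inl ⟨u, h⟩)
    have hc2 : (2 : F) = 0 := by
      by_contra h
      exact hc (Or.inr h)
    have ht : τ = RingEquiv.refl F := RingEquiv.ext hc1
    subst ht
    have key := f_JFG (fun K _ _ h2 x hx h1 => by
      obtain ⟨h3, ⟨k, hk, hk4⟩, h7⟩ := gf357 K (RingEquiv.refl K) (fun _ => rfl) x hx h1
      refine ⟨h3, ?_, h7⟩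
      have h5 : (5 : K) ≠ 0 := by
        have e : (5 : K) = 2 + 2 + 1 := by norm_num
        rw [e, h2]
        simp
      exact f_G5F K (RingEquiv.refl K) (fun _ => rfl) h5 x hx h1) F hc2 x h1
    obtain ⟨h3, h5, h7⟩ := key
    exact bound_of x (fun _ => h3) (fun _ => ⟨4, h5, le_rfl⟩) (fun _ => ⟨6, h7, le_rfl⟩)
      fun r hr _ hd => ⟨10, gf10 hR hI F hc2 x h1 r hr (by omega) hd, le_rfl⟩

theorem twisted_of (hR : KFF_stmt) (hI : Inv10) (F : Type) [Field F] [Finite F] : Twisted F := by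
  intro τ hτ
  have key : ∀ H : Subgroup (Equiv.Perm (LT τ)), H = GF τ → ∀ x : MulAut H, x ≠ 1 → BoundQ1 x := by
    rintro _ rfl
    exact gf_bound hR hI F τ hτ
  exact key (TwS τ) (TwS_eq τ)

end Pool.Agent.FA
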